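import Pool.Agent.H76.AB.Stm

/-!
# Crew AB: part EMB
-/

set_option autoImplicit false

namespace H88.AB

open SimpleGraph H76.AB

/-- the parent of a vertex of a tree -/
theorem exists_parent {W : Type} {T : SimpleGraph W} (hT : T.IsTree) (x0 a : W) (ha : a ≠ x0) :
    ∃ p, T.Adj a p ∧ T.dist p x0 + 1 = T.dist a x0 := by
  obtain ⟨w, hw⟩ := hT.connected.exists_walk_length_eq_dist a x0
  cases w with
  | nil => exact absurd rfl ha
  | @cons _ y _ h q =>
    refine ⟨y, h, ?_⟩
    rw [Walk.length_cons] at hw
    have h1 : T.dist y x0 ≤ q.length := SimpleGraph.dist_le q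
    obtain ⟨q', hq'⟩ := hT.connected.exists_walk_length_eq_dist y x0
    have h2 : T.dist a x0 ≤ q'.length + 1 := by
      have := SimpleGraph.dist_le (Walk.cons h q')
      rwa [Walk.length_cons] at this
    omega

theorem parent_unique {W : Type} {T : SimpleGraph W} (hT : T.IsTree) (x0 a p p' : W)
    (h : T.Adj a p) (hd : T.dist p x0 + 1 = T.dist a x0) (h' : T.Adj a p')
    (hd' : T.dist p' x0 + 1 = T.dist a x0) : p = p' := by
  obtain ⟨w, hw⟩ := hT.connected.exists_walk_length_eq_dist p x0
  obtain ⟨w', hw'⟩ := hT.connected.exists_walk_length_eq_dist p' x0
  have h1 : (Walk.cons h w).IsPath :=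
    Walk.isPath_of_length_eq_dist _ (by rw [Walk.length_cons, hw, hd])
  have h2 : (Walk.cons h' w').IsPath :=
    Walk.isPath_of_length_eq_dist _ (by rw [Walk.length_cons, hw', hd'])
  have h3 : (⟨_, h1⟩ : T.Path a x0) = ⟨_, h2⟩ :=
    (hT.isAcyclic.subsingleton_path a x0).elim _ _
  have h4 : Walk.cons h w = Walk.cons h' w' := congrArg Subtype.val h3
  have h5 : (Walk.cons h w).getVert 1 = (Walk.cons h' w').getVert 1 := by rw [h4]
  simpa using h5

theorem t_EMB : S_EMB := by
  intro V W _ T H lev K lam t r hT h1 h2 h3 hr hlam hcnt
  classical
  have := Fintype.ofFinite W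
  obtain ⟨x0⟩ := hT.connected.nonempty
  let d : W → ℕ := fun x => T.dist x x0
  have dne : ∀ x y, T.Adj x y → d x ≠ d y := by
    intro x y h
    have := hT.dist_ne_of_adj x0 h
    rwa [SimpleGraph.dist_comm, SimpleGraph.dist_comm (u := x0) (v := y)] at this
  have dle : ∀ x y, T.Adj x y → d x ≤ d y + 1 := by
    intro x y h
    obtain ⟨q, hq⟩ := hT.connected.exists_walk_length_eq_dist y x0
    have := SimpleGraph.dist_le (Walk.cons h q)
    rw [Walk.length_cons, hq] at this
    exact this
  let Q : Finset W → Prop := fun s =>
    (∀ x ∈ s, ∀ y, T.Adj x y → d y < d x → y ∈ s) →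
    ∃ f : W → V, (∀ x ∈ s, f x ∈ K ∧ lev (f x) = lam x) ∧
      (∀ x ∈ s, ∀ y ∈ s, T.Adj x y → H.Adj (f x) (f y)) ∧
      (∀ x ∈ s, ∀ y ∈ s, ∀ z ∈ s, T.Adj x y → T.Adj x z → f y = f z → y = z)
  have hQ : Q Finset.univ := by
    refine Finset.induction_on_max_value (motive := Q) d Finset.univ ?_ ?_
    · intro _
      obtain ⟨u, -, -⟩ := h3 0 (Nat.zero_le _)
      exact ⟨fun _ => u, by simp, by simp, by simp⟩
    · intro a s has hmax ih hcl
      have hcls : ∀ x ∈ s, ∀ y, T.Adj x y → d y < d x → y ∈ s := by
        intro x hx y hxy hd
        rcases Finset.mem_insert.1 (hcl x (Finset.mem_insert_of_mem hx) y hxy hd) with h | h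
        · rw [h] at hd
          exact absurd (hmax x hx) (by omega)
        · exact h
      obtain ⟨f, f1, f2, f3⟩ := ih hcls
      by_cases ha0 : a = x0
      · -- s is empty
        have hs : s = ∅ := by
          rw [Finset.eq_empty_iff_forall_notMem]
          intro x hx
          have h4 := hmax x hx
          have h5 : d a = 0 := by
            show T.dist a x0 = 0
            rw [ha0]; exact SimpleGraph.dist_self
          have h6 : T.dist x x0 = 0 := by
            have : d x ≤ 0 := by rw [← h5]; exact h4
            exact Nat.le_zero.1 this
          have h7 : x = x0 := (hT.connected.dist_eq_zero_iff).1 h6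
          rw [h7, ← ha0] at hx
          exact has hx
        obtain ⟨u, huK, hul⟩ := h3 (lam a) (hr a)
        refine ⟨fun _ => u, ?_, ?_, ?_⟩
        · intro x hx
          rw [hs] at hx
          simp only [insert_empty_eq, Finset.mem_singleton] at hx
          rw [hx]
          exact ⟨huK, hul⟩
        · intro x hx y hy hxy
          rw [hs] at hx hy
          simp only [insert_empty_eq, Finset.mem_singleton] at hx hy
          rw [hx, hy] at hxy
          exact absurd hxy (SimpleGraph.irrefl _)
        · intro x hx y hy z hz _ _ _
          rw [hs] at hy hz
          simp only [insert_empty_eq, Finset.mem_singleton] at hy hz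
          rw [hy, hz]
      · obtain ⟨p, hap, hdp⟩ := exists_parent hT x0 a ha0
        have hps : p ∈ s := by
          rcases Finset.mem_insert.1 (hcl a (Finset.mem_insert_self _ _) p hap
            (by show T.dist p x0 < T.dist a x0; omega)) with h | h
          · rw [h] at hap; exact absurd hap (SimpleGraph.irrefl _)
          · exact h
        have huniq : ∀ y ∈ s, T.Adj a y → y = p := by
          intro y hy hay
          have h4 : d y ≤ d a := hmax y hy
          have h5 := dne a y hay
          have h6 := dle a y hay
          exact parent_unique hT x0 a y p hay (by show d y + 1 = d a; omega) hap hdp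
        -- the new image
        have hnew : ∃ v ∈ K, H.Adj (f p) v ∧ lev v = lam a ∧
            ∀ y ∈ s, T.Adj p y → f y ≠ v := by
          rcases hlam p a hap.symm with h | h
          · -- lam p = lam a + 1
            obtain ⟨F, hF, hFx⟩ := h1 (f p) (f1 p hps).1 (by rw [(f1 p hps).2]; omega)
            have hc : (s.image f).card < F.card := by
              refine lt_of_lt_of_le ?_ hF
              rw [Nat.card_eq_fintype_card]
              refine lt_of_le_of_lt Finset.card_image_le ?_
              refine lt_of_lt_of_le (b := (insert a s).card) ?_ (Finset.card_le_univ _)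
              rw [Finset.card_insert_of_notMem has]; omega
            obtain ⟨v, hv, hvn⟩ := Finset.exists_mem_notMem_of_card_lt_card hc
            obtain ⟨g1, g2, g3⟩ := hFx v hv
            refine ⟨v, g1, g2, by rw [(f1 p hps).2] at g3; omega, ?_⟩
            intro y hy _ he
            exact hvn (he ▸ Finset.mem_image_of_mem f hy)
          · -- lam a = lam p + 1
            obtain ⟨F, hF, hFx⟩ := h2 (f p) (f1 p hps).1 (by
              rw [(f1 p hps).2]; have := hr a; omega)
            have hc : ((s.filter (fun y => T.Adj p y ∧ lam y = lam p + 1)).image f).card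
                < F.card := by
              refine lt_of_lt_of_le ?_ hF
              rw [(f1 p hps).2]
              refine lt_of_le_of_lt Finset.card_image_le ?_
              refine lt_of_lt_of_le ?_ (hcnt p)
              rw [← Set.ncard_coe_finset]
              refine Set.ncard_lt_ncard ?_ (Set.toFinite _)
              rw [Set.ssubset_iff_of_subset]
              · refine ⟨a, ⟨hap.symm, h⟩, ?_⟩
                intro h7
                exact has (Finset.mem_filter.1 (Finset.mem_coe.1 h7)).1
              · intro y hy
                exact (Finset.mem_filter.1 (Finset.mem_coe.1 hy)).2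
            obtain ⟨v, hv, hvn⟩ := Finset.exists_mem_notMem_of_card_lt_card hc
            obtain ⟨g1, g2, g3⟩ := hFx v hv
            rw [(f1 p hps).2] at g3
            refine ⟨v, g1, g2, by omega, ?_⟩
            intro y hy hpy he
            apply hvn
            rw [← he]
            refine Finset.mem_image_of_mem f (Finset.mem_filter.2 ⟨hy, hpy, ?_⟩)
            rw [← (f1 y hy).2, he, g3]
        obtain ⟨v, vK, vH, vl, vn⟩ := hnew
        have upd : ∀ x ∈ s, Function.update f a v x = f x := fun x hx =>
          Function.update_of_ne (fun h : x = a => has (h ▸ hx)) _ _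
        have upa : Function.update f a v a = v := Function.update_self _ _ _
        refine ⟨Function.update f a v, ?_, ?_, ?_⟩
        · intro x hx
          rcases Finset.mem_insert.1 hx with h | h
          · rw [h, upa]; exact ⟨vK, vl⟩
          · rw [upd x h]; exact f1 x h
        · intro x hx y hy hxy
          rcases Finset.mem_insert.1 hx with h | h
          · rcases Finset.mem_insert.1 hy with h' | h'
            · rw [h, h'] at hxy; exact absurd hxy (SimpleGraph.irrefl _)
            · rw [h] at hxy
              rw [h, upa, upd y h', huniq y h' hxy]
              exact vH.symm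
          · rcases Finset.mem_insert.1 hy with h' | h'
            · rw [h'] at hxy
              rw [h', upa, upd x h, huniq x h hxy.symm]
              exact vH
            · rw [upd x h, upd y h']; exact f2 x h y h' hxy
        · intro x hx y hy z hz hxy hxz hyz
          rcases Finset.mem_insert.1 hx with h | h
          · rw [h] at hxy hxz
            have ys : y ∈ s := by
              rcases Finset.mem_insert.1 hy with h' | h'
              · rw [h'] at hxy; exact absurd hxy (SimpleGraph.irrefl _)
              · exact h'
            have zs : z ∈ s := by
              rcases Finset.mem_insert.1 hz with h' | h'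
              · rw [h'] at hxz; exact absurd hxz (SimpleGraph.irrefl _)
              · exact h'
            rw [huniq y ys hxy, huniq z zs hxz]
          · rcases Finset.mem_insert.1 hy with hya | hys
            · rcases Finset.mem_insert.1 hz with hza | hzs
              · rw [hya, hza]
              · exfalso
                rw [hya] at hxy
                have hxp := huniq x h hxy.symm
                rw [hxp] at hxz
                rw [hya, upa, upd z hzs] at hyz
                exact vn z hzs hxz hyz.symm
            · rcases Finset.mem_insert.1 hz with hza | hzs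
              · exfalso
                rw [hza] at hxz
                have hxp := huniq x h hxz.symm
                rw [hxp] at hxy
                rw [hza, upa, upd y hys] at hyz
                exact vn y hys hxy hyz
              · rw [upd y hys, upd z hzs] at hyz
                exact f3 x h y hys z hzs hxy hxz hyz
  obtain ⟨f, f1, f2, f3⟩ := hQ (fun x _ y _ _ => Finset.mem_univ y)
  exact ⟨f, fun x => (f1 x (Finset.mem_univ x)).1,
    fun x y h => f2 x (Finset.mem_univ x) y (Finset.mem_univ y) h,
    fun x y z h h' h'' => f3 x (Finset.mem_univ x) y (Finset.mem_univ y) z (Finset.mem_univ z)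
      h h' h''⟩

end H88.AB
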