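import Pool.Agent.H76.AB.Stm

/-!
# Crew AB: parts LFG and INJ
-/

set_option autoImplicit false

namespace H88.AB

open SimpleGraph H76.AB

theorem t_LFG : S_LFG := by
  intro m w g D R hH S hS hcard
  classical
  by_cases hr : ∃ v, Sum.inr v ∈ S
  · obtain ⟨v, hv⟩ := hr
    refine ⟨Sum.inr v, hv, ?_⟩
    intro y _ z _ hy hz
    have key : ∀ y : R.V ⊕ R.V × Fin D, (R.G m w D).Adj (Sum.inr v) y → y = Sum.inl v.1 := by
      intro y hy
      rcases y with y | y
      · have h1 : y = v.1 ∧ R.node y = [] := hy
        rw [h1.1]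
      · exact absurd hy (fun h => h)
    rw [key y hy, key z hz]
  · have hne : S.toLeft.Nonempty := by
      obtain ⟨x, hx⟩ := hS
      rcases x with x | x
      · exact ⟨x, Finset.mem_toLeft.2 hx⟩
      · exact absurd ⟨x, hx⟩ hr
    obtain ⟨x, hx, hu⟩ := hH S.toLeft hne ((Finset.card_toLeft_le).trans hcard)
    refine ⟨Sum.inl x, Finset.mem_toLeft.1 hx, ?_⟩
    intro y hy z hz hxy hxz
    rcases y with y | y
    · rcases z with z | z
      · have h1 : (R.H m w).Adj x y := hxy
        have h2 : (R.H m w).Adj x z := hxz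
        rw [hu y (Finset.mem_toLeft.2 hy) z (Finset.mem_toLeft.2 hz) h1 h2]
      · exact absurd ⟨z, hz⟩ hr
    · exact absurd ⟨y, hy⟩ hr

theorem t_INJ : S_INJ := by
  intro V W _ T H f hconn hloc hhom hinj
  classical
  have := Fintype.ofFinite W
  by_contra hni
  -- sequences
  let P : ℕ → Prop := fun n => ∃ v : ℕ → W, (∀ i, i < n → T.Adj (v i) (v (i + 1))) ∧
    v 0 ≠ v n ∧ f (v 0) = f (v n)
  have hP : ∃ n, P n := by
    unfold Function.Injective at hni
    push Not at hni
    obtain ⟨a, b, hab, hne⟩ := hni
    obtain ⟨p⟩ := hconn.preconnected a b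
    refine ⟨p.length, p.getVert, fun i hi => p.adj_getVert_succ hi, ?_, ?_⟩
    · rw [p.getVert_zero, p.getVert_length]; exact hne
    · rw [p.getVert_zero, p.getVert_length]; exact hab
  set n := Nat.find hP with hn
  obtain ⟨v, hv, hne, hfe⟩ := Nat.find_spec hP
  rw [← hn] at hv hne hfe
  have hmin : ∀ k, k < n → ¬ P k := fun k hk => Nat.find_min hP hk
  have hn0 : n ≠ 0 := fun h => hne (by rw [h])
  -- subsequences
  have sub : ∀ i j, i < j → j ≤ n → j - i < n → f (v i) = f (v j) → v i = v j := by
    intro i j hij hj hlt hf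
    by_contra hne'
    refine hmin (j - i) hlt ⟨fun k => v (i + k), ?_, ?_, ?_⟩
    · intro k hk
      exact hv (i + k) (by omega)
    · simp only [add_zero]
      rw [show i + (j - i) = j by omega]
      exact hne'
    · simp only [add_zero]
      rw [show i + (j - i) = j by omega]
      exact hf
  have vinj : ∀ i j, i < j → j ≤ n → v i ≠ v j := by
    intro i j hij hj heq
    refine hmin (n - (j - i)) (by omega) ⟨fun k => if k ≤ i then v k else v (k + (j - i)), ?_, ?_, ?_⟩
    · intro k hk
      by_cases h1 : k + 1 ≤ i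
      · simp only [if_pos h1, if_pos (by omega : k ≤ i)]
        exact hv k (by omega)
      · by_cases h2 : k ≤ i
        · have h3 : k = i := by omega
          simp only [if_neg h1, if_pos h2]
          rw [h3, heq, show i + 1 + (j - i) = j + 1 by omega]
          exact hv j (by omega)
        · simp only [if_neg h1, if_neg h2]
          rw [show k + 1 + (j - i) = k + (j - i) + 1 by ring]
          exact hv _ (by omega)
    · simp only [if_pos (Nat.zero_le i)]
      by_cases h1 : n - (j - i) ≤ i
      · have h3 : n - (j - i) = i := by omega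
        have h4 : j = n := by omega
        rw [if_pos h1, h3, heq, h4]
        exact hne
      · rw [if_neg h1, show n - (j - i) + (j - i) = n by omega]
        exact hne
    · simp only [if_pos (Nat.zero_le i)]
      by_cases h1 : n - (j - i) ≤ i
      · have h3 : n - (j - i) = i := by omega
        have h4 : j = n := by omega
        rw [if_pos h1, h3, heq, h4]
        exact hfe
      · rw [if_neg h1, show n - (j - i) + (j - i) = n by omega]
        exact hfe
  have finj : ∀ i j, i < j → j < n → f (v i) ≠ f (v j) := fun i j hij hj h =>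
    vinj i j hij hj.le (sub i j hij hj.le (by omega) h)
  set S : Finset V := ((Finset.range n).image v).image f with hS
  have hSc : S.card ≤ Nat.card W := by
    rw [Nat.card_eq_fintype_card]
    exact Finset.card_image_le.trans (Finset.card_le_univ _)
  have hmem : ∀ i, i ≤ n → f (v i) ∈ S := by
    intro i hi
    rcases Nat.lt_or_ge i n with h | h
    · exact Finset.mem_image_of_mem _ (Finset.mem_image_of_mem _ (Finset.mem_range.2 h))
    · have : i = n := by omega
      rw [this, ← hfe]
      exact Finset.mem_image_of_mem _ (Finset.mem_image_of_mem _ (Finset.mem_range.2 (by omega)))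
  obtain ⟨x, hx, hu⟩ := hloc S ⟨_, hmem 0 (Nat.zero_le _)⟩ hSc
  obtain ⟨y, hy, rfl⟩ := Finset.mem_image.1 hx
  obtain ⟨i, hi, rfl⟩ := Finset.mem_image.1 hy
  rw [Finset.mem_range] at hi
  rcases Nat.eq_zero_or_pos i with h0 | hpos
  · subst h0
    -- the ends
    have e1 : T.Adj (v 0) (v 1) := hv 0 (by omega)
    have e2 : T.Adj (v (n - 1)) (v n) := by
      have := hv (n - 1) (by omega)
      rwa [show n - 1 + 1 = n by omega] at this
    have a1 : H.Adj (f (v 0)) (f (v 1)) := hhom _ _ e1
    have a2 : H.Adj (f (v 0)) (f (v (n - 1))) := by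
      rw [hfe]; exact (hhom _ _ e2).symm
    have h3 := hu _ (hmem 1 (by omega)) _ (hmem (n - 1) (by omega)) a1 a2
    rcases Nat.lt_trichotomy 1 (n - 1) with h | h | h
    · exact finj 1 (n - 1) h (by omega) h3
    · have hn2 : n = 2 := by omega
      rw [hn2] at hfe hne
      have e3 : T.Adj (v 1) (v 2) := hv 1 (by omega)
      exact hne (hinj (v 1) (v 0) (v 2) e1.symm e3 hfe)
    · have hn1 : n = 1 := by omega
      rw [hn1] at hfe
      rw [hfe] at a1
      exact SimpleGraph.irrefl _ a1
  · have e1 : T.Adj (v i) (v (i + 1)) := hv i hi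
    have e2 : T.Adj (v i) (v (i - 1)) := by
      have := hv (i - 1) (by omega)
      rw [show i - 1 + 1 = i by omega] at this
      exact this.symm
    have h3 := hu _ (hmem (i + 1) (by omega)) _ (hmem (i - 1) (by omega))
      (hhom _ _ e1) (hhom _ _ e2)
    have h4 := hinj (v i) _ _ e1 e2 h3
    exact vinj (i - 1) (i + 1) (by omega) (by omega) h4.symm

end H88.AB
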